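import Pool.Agent.H.MP_8f8c07_co.B

namespace Pool.Agent.Results.MP_8f8c07_co.Yes

def AbPow (k : ℕ) (y : List Bool) : Prop :=
  ∃ ws : List (List Bool), ws.length = k ∧ ws.flatten = y ∧ ∀ u ∈ ws, u ≠ [] ∧ ∀ v ∈ ws, u.Perm v

def AbFree (k : ℕ) (w : List Bool) : Prop := ∀ y, y <:+: w → ¬ AbPow k y

def Factor (y : List Bool) (x : ℕ → Bool) : Prop :=
  ∃ s, ∀ i (hi : i < y.length), x (s + i) = y[i]

theorem result : ∃ h : List Bool → List Bool, (∀ u v, h (u ++ v) = h u ++ h v) ∧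
    (∃ k, 2 ≤ k ∧ ∀ w, AbFree k w → AbFree k (h w)) ∧
    (∃ u, u ≠ [] ∧ h [false] = false :: u) ∧
    Filter.Tendsto (fun n => (h^[n] [false]).length) Filter.atTop Filter.atTop ∧
    ∃ x : ℕ → Bool, (∀ n i (hi : i < (h^[n] [false]).length), x i = (h^[n] [false])[i]) ∧
      (∀ y, y ≠ [] → ¬ Factor (y ++ y ++ y ++ y ++ y) x) ∧ ¬ Factor [true, true] x :=
  Pool.Agent.H.MP_8f8c07_co.main

end Pool.Agent.Results.MP_8f8c07_co.Yes
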